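import Pool.Agent.KS6_70.SK.C

/-!
# Semilocal skew Laurent series rings and their coefficient rings

Let `A` be a ring with an automorphism `φ`, and let `A((x,φ))` be the skew Laurent series ring
(`SkewLaurent A φ`, defined in `Pool/Agent/KS6_70/SK/Def.lean`, with `x a = φ(a) x`). We show:

* (nil part, negative) for every field `k` there is a commutative local ring `A`
  with `A((x,φ))` local (so semilocal) and `J(A)` not nil;
* if `A((x,φ))` is semilocal, then `A` is semilocal, and for all `a ∈ J(A)` and `i ≥ 1` some product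
  `a φ^(-i)(a) φ^(-2i)(a) ⋯ φ^(-i(k-1))(a)` is zero;
* if `A((x,φ))` is semilocal and every element of `J(A)` has a finite `φ`-orbit (for example, if `φ`
  has finite order), then `A` is semiperfect and `J(A)` is nil;
* if `A((x,φ))` is semilocal and `A` is commutative, then `A` is semiperfect;
* if `A((x,φ))` is local, then `A` is local.
-/

set_option autoImplicit false

namespace Pool.Agent.Results.MP_669787_al.CommutativeSemiperfect

open Pool.Agent.KS6_70.SK

universe u

theorem result :
    (∀ (k : Type u) [Field k], ∃ (A : Type u) (_ : CommRing A) (φ : RingAut A),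
      IsLocalRing A ∧ IsLocalRing (SkewLaurent A φ) ∧ IsSemilocal (SkewLaurent A φ) ∧
        ∃ a ∈ Ring.jacobson A, ¬ IsNilpotent a) ∧
    (∀ (A : Type u) [Ring A] (φ : RingAut A), IsSemilocal (SkewLaurent A φ) →
      IsSemilocal A ∧
      (∀ a ∈ Ring.jacobson A, ∀ i : ℕ, 1 ≤ i →
        ∃ k : ℕ, ((List.range k).map fun s : ℕ => (φ ^ (-((i : ℤ) * s))) a).prod = 0) ∧
      ((∀ a ∈ Ring.jacobson A, ∃ n : ℕ, 1 ≤ n ∧ (φ ^ n) a = a) →
        IsSemiperfect A ∧ ∀ a ∈ Ring.jacobson A, IsNilpotent a)) ∧
    (∀ (A : Type u) [CommRing A] (φ : RingAut A), IsSemilocal (SkewLaurent A φ) →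
      IsSemiperfect A) ∧
    (∀ (A : Type u) [Ring A] (φ : RingAut A), IsLocalRing (SkewLaurent A φ) →
      IsLocalRing A) := by
  refine ⟨fun k _ => counterexample k, fun A _ φ h => ⟨isSemilocal_coeff h, ?_, ?_⟩,
    fun A _ φ h => semiperfect_of_comm h, fun A _ φ h => isLocalRing_coeff h⟩
  · intro a ha i hi
    exact exists_nprod_eq_zero h ha (i := i) (by exact_mod_cast hi)
  · intro horb
    exact semiperfect_of_orbits h horb

end Pool.Agent.Results.MP_669787_al.CommutativeSemiperfect
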